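import Pool.Agent.MQG.StmtsA

set_option autoImplicit false

/-!
# MQG (MP_a4f485_an), row BTW: the slices of `Wt` and of `W` have the same closed span (helper67)
-/

namespace Pool.Agent.MQG.H67

open scoped InnerProductSpace InnerProduct Topology ComplexConjugate
open Complex Filter Pool.Agent.MQG

theorem co_mem_CoSp {κ ι : Type} (T : Op (κ × ι)) (x z : L2 κ) : co T x z ∈ CoSp T :=
  Submodule.le_topologicalClosure _ (Submodule.subset_span ⟨x, z, rfl⟩)

theorem isClosed_CoSp {κ ι : Type} (T : Op (κ × ι)) : IsClosed (CoSp T : Set (Op ι)) :=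
  Submodule.isClosed_topologicalClosure _

theorem CoSp_le {κ ι : Type} (T : Op (κ × ι)) (S : Submodule ℂ (Op ι))
    (hS : IsClosed (S : Set (Op ι))) (h : ∀ x z, co T x z ∈ S) : CoSp T ≤ S := by
  refine Submodule.topologicalClosure_minimal _ ?_ hS
  refine Submodule.span_le.2 ?_
  rintro _ ⟨x, z, rfl⟩
  exact h x z

theorem btw (hbco : BcoStmt) : BtwStmt := by
  intro ι M
  apply le_antisymm
  · refine CoSp_le _ _ (isClosed_CoSp _) fun x z => ?_
    refine co_mem_of_total (total_star (total_traj M.V_group (-(I / 2))))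
      (total_star (total_traj M.V_group (I / 2))) M.Wt _ (isClosed_CoSp _) ?_ x z
    rintro _ ⟨_, ⟨g, hg, rfl⟩, rfl⟩ _ ⟨_, ⟨f, hf, rfl⟩, rfl⟩
    rw [← hbco ι M f g hf hg]
    exact co_mem_CoSp _ _ _
  · refine CoSp_le _ _ (isClosed_CoSp _) fun x z => ?_
    refine co_mem_of_total (total_traj M.V_group 0) (total_traj M.V_group 0) M.W _
      (isClosed_CoSp _) ?_ x z
    rintro _ ⟨f, hf, rfl⟩ _ ⟨g, hg, rfl⟩
    rw [hbco ι M f g hf hg]
    exact co_mem_CoSp _ _ _

end Pool.Agent.MQG.H67
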